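import Pool.Agent.Helper89.TQ.Ctx

set_option autoImplicit false
set_option linter.all false
set_option maxHeartbeats 4000000

namespace Pool.Agent.Helper52.TQ

open Pool.Agent.Helper89.TQ

theorem nand2 {a0 a1 : Prop} (h : ¬ (a0 ∧ a1)) : ¬ a0 ∨ ¬ a1 := by
  by_contra hc
  push Not at hc
  exact h hc

theorem nand3 {a0 a1 a2 : Prop} (h : ¬ (a0 ∧ a1 ∧ a2)) : ¬ a0 ∨ ¬ a1 ∨ ¬ a2 := by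
  by_contra hc
  push Not at hc
  exact h hc

theorem nand4 {a0 a1 a2 a3 : Prop} (h : ¬ (a0 ∧ a1 ∧ a2 ∧ a3)) : ¬ a0 ∨ ¬ a1 ∨ ¬ a2 ∨ ¬ a3 := by
  by_contra hc
  push Not at hc
  exact h hc

theorem nand5 {a0 a1 a2 a3 a4 : Prop} (h : ¬ (a0 ∧ a1 ∧ a2 ∧ a3 ∧ a4)) : ¬ a0 ∨ ¬ a1 ∨ ¬ a2 ∨ ¬ a3 ∨ ¬ a4 := by
  by_contra hc
  push Not at hc
  exact h hc

theorem nand6 {a0 a1 a2 a3 a4 a5 : Prop} (h : ¬ (a0 ∧ a1 ∧ a2 ∧ a3 ∧ a4 ∧ a5)) : ¬ a0 ∨ ¬ a1 ∨ ¬ a2 ∨ ¬ a3 ∨ ¬ a4 ∨ ¬ a5 := by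
  by_contra hc
  push Not at hc
  exact h hc

theorem nand7 {a0 a1 a2 a3 a4 a5 a6 : Prop} (h : ¬ (a0 ∧ a1 ∧ a2 ∧ a3 ∧ a4 ∧ a5 ∧ a6)) : ¬ a0 ∨ ¬ a1 ∨ ¬ a2 ∨ ¬ a3 ∨ ¬ a4 ∨ ¬ a5 ∨ ¬ a6 := by
  by_contra hc
  push Not at hc
  exact h hc

theorem nand8 {a0 a1 a2 a3 a4 a5 a6 a7 : Prop} (h : ¬ (a0 ∧ a1 ∧ a2 ∧ a3 ∧ a4 ∧ a5 ∧ a6 ∧ a7)) : ¬ a0 ∨ ¬ a1 ∨ ¬ a2 ∨ ¬ a3 ∨ ¬ a4 ∨ ¬ a5 ∨ ¬ a6 ∨ ¬ a7 := by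
  by_contra hc
  push Not at hc
  exact h hc

end Pool.Agent.Helper52.TQ
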