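import Pool.Agent.Helper52.TQ.Nand

set_option autoImplicit false
set_option linter.all false
set_option maxHeartbeats 4000000

namespace Pool.Agent.Helper52.TQ

open Pool.Agent.Helper89.TQ

theorem c0_11_11_33_k0 {n1 n2 n3 A1 A2 A3 B1 B2 B3 m11_1 m11_2 m11_3 m13_1 m13_2 m13_3 m22_1 m22_2 m22_3 m23_1 m23_2 m23_3 m33_1 m33_2 m33_3 : ℤ}
    (C : Ctx0 n1 n2 n3 A1 A2 A3 B1 B2 B3 m11_1 m11_2 m11_3 m13_1 m13_2 m13_3 m22_1 m22_2 m22_3 m23_1 m23_2 m23_3 m33_1 m33_2 m33_3)
    (e0 : 0 < B1)
    (e1 : 0 < A3)
    (s1 : 0 * A1 + 3 * B1 ≤ m11_1 + m11_1 + m33_1)
    (s2 : 0 * A2 + 3 * B2 ≤ m11_2 + m11_2 + m33_2)
    (s3 : 0 * A3 + 3 * B3 ≤ m11_3 + m11_3 + m33_3) : False := by
  have H_a0 := C.a0
  have H_a1 := C.a1
  have H_a2 := C.a2
  have H_a3 := C.a3
  have H_a4 := C.a4
  have H_a5 := C.a5
  have H_b0 := C.b0
  have H_b1 := C.b1
  have H_b2 := C.b2
  have H_b3 := C.b3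
  have H_b4 := C.b4
  have H_b5 := C.b5
  have H_o0 := C.o0
  have H_o1 := C.o1
  have H_o2 := C.o2
  have H_f11_0 := C.f11_0
  have H_f11_1 := C.f11_1
  have H_f11_2 := C.f11_2
  have H_f13_0 := C.f13_0
  have H_f13_1 := C.f13_1
  have H_f13_3 := C.f13_3
  have H_f13_4 := C.f13_4
  have H_f13_6 := C.f13_6
  have H_f13_7 := C.f13_7
  have H_f22_0 := C.f22_0
  have H_f22_1 := C.f22_1
  have H_f22_3 := C.f22_3
  have H_f22_4 := C.f22_4
  have H_f22_6 := C.f22_6
  have H_f23_0 := C.f23_0
  have H_f23_1 := C.f23_1
  have H_f23_2 := C.f23_2
  have H_f23_4 := C.f23_4
  have H_f23_5 := C.f23_5
  have H_f23_6 := C.f23_6
  have H_f23_8 := C.f23_8
  have H_f23_9 := C.f23_9
  have H_f33_0 := C.f33_0
  have H_f33_1 := C.f33_1
  have H_f33_3 := C.f33_3
  have H_f33_4 := C.f33_4
  have H_f33_6 := C.f33_6
  have H_f33_7 := C.f33_7
  have P_A1 : 0 < A1 := by omega -splitDisjunctions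
  have P_B3 : 0 < B3 := by omega -splitDisjunctions
  have P_B2 : 0 < B2 := by omega -splitDisjunctions
  have P_A2 : 0 < A2 := by omega -splitDisjunctions
  have H_f13_2 := C.f13_2
  have H_f13_5 := C.f13_5
  have H_f13_8 := C.f13_8
  have H_f22_2 := C.f22_2
  have H_f22_5 := C.f22_5
  have H_f23_10 := C.f23_10
  have H_f23_3 := C.f23_3
  have H_f23_7 := C.f23_7
  have H_f33_2 := C.f33_2
  have H_f33_5 := C.f33_5
  have H_f33_8 := C.f33_8
  have H_p11_13B := C.p11_13B
  have H_p11_22B := C.p11_22B
  have H_p11_23B := C.p11_23B
  have H_p11_33A := C.p11_33A
  have H_p11_33B := C.p11_33B
  have H_p13_22A := C.p13_22A
  have H_p13_22B := C.p13_22B
  have H_p13_23B := C.p13_23B
  have H_p13_33A := C.p13_33A
  have H_p13_33B := C.p13_33B
  have H_p22_23A := C.p22_23A
  have H_p22_33A := C.p22_33A
  have H_p22_33B := C.p22_33B
  have H_p23_33A := C.p23_33A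
  have H_p23_33B := C.p23_33B
  have H_t12 := C.t12
  have H_t23 := C.t23
  have H_tmpp := C.tmpp
  have H_tmzp := C.tmzp
  have H_tpmz := C.tpmz
  have H_tzmp := C.tzmp
  clear C
  · rcases H_f13_2 with g0 | g0
    · rcases H_f13_5 with g1 | g1
      · rcases H_f13_8 with g2 | g2
        · omega -splitDisjunctions
        · rcases H_f33_5 with g3 | g3
          · rcases H_f33_8 with g4 | g4
            · omega -splitDisjunctions
            · rcases (nand3 (H_p11_33B e0 e1)) with g5 | g5 | g5
              · omega -splitDisjunctions
              · omega -splitDisjunctions
              · rcases (nand3 (H_p13_33B P_A1 P_B3 e1)) with g6 | g6 | g6
                · omega -splitDisjunctions
                · omega -splitDisjunctions
                · rcases H_t12 with g7 | g7
                  · rcases H_f33_2 with g8 | g8
                    · rcases (nand3 (H_p11_13B e0 P_A1 P_B3)) with g9 | g9 | g9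
                      · rcases (nand3 (H_p11_33A e0 e1)) with g10 | g10 | g10
                        · rcases (nand3 (H_p13_33A P_A1 P_B3 e1)) with g11 | g11 | g11
                          · omega -splitDisjunctions
                          · omega -splitDisjunctions
                          · rcases H_f22_2 with g12 | g12
                            · rcases H_f22_5 with g13 | g13
                              · omega -splitDisjunctions
                              · rcases (nand3 (H_p11_22B e0 P_B2)) with g14 | g14 | g14
                                · omega -splitDisjunctions
                                · rcases (nand3 (H_p22_33A P_B2 e1)) with g15 | g15 | g15
                                  · omega -splitDisjunctions
                                  · omega -splitDisjunctions
                                  · omega -splitDisjunctions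
                                · omega -splitDisjunctions
                            · rcases H_f22_5 with g16 | g16
                              · omega -splitDisjunctions
                              · rcases (nand3 (H_p22_33B P_B2 e1)) with g17 | g17 | g17
                                · omega -splitDisjunctions
                                · omega -splitDisjunctions
                                · rcases H_f23_3 with g18 | g18 | g18
                                  · rcases H_f23_7 with g19 | g19 | g19
                                    · omega -splitDisjunctions
                                    · rcases (nand3 (H_p23_33A P_A2 P_B3 e1)) with g20 | g20 | g20
                                      · omega -splitDisjunctions
                                      · omega -splitDisjunctions
                                      · rcases (nand3 (H_p23_33B P_A2 P_B3 e1)) with g21 | g21 | g21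
                                        · omega -splitDisjunctions
                                        · omega -splitDisjunctions
                                        · rcases (nand4 H_tmpp) with g22 | g22 | g22 | g22
                                          · omega -splitDisjunctions
                                          · omega -splitDisjunctions
                                          · omega -splitDisjunctions
                                          · rcases (nand3 (H_p22_33A P_B2 e1)) with g23 | g23 | g23
                                            · omega -splitDisjunctions
                                            · omega -splitDisjunctions
                                            · omega -splitDisjunctions
                                    · omega -splitDisjunctions
                                  · rcases H_f23_7 with g24 | g24 | g24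
                                    · omega -splitDisjunctions
                                    · rcases (nand3 (H_p23_33A P_A2 P_B3 e1)) with g25 | g25 | g25
                                      · omega -splitDisjunctions
                                      · omega -splitDisjunctions
                                      · rcases (nand3 (H_p23_33B P_A2 P_B3 e1)) with g26 | g26 | g26
                                        · omega -splitDisjunctions
                                        · omega -splitDisjunctions
                                        · rcases (nand4 H_tzmp) with g27 | g27 | g27 | g27
                                          · omega -splitDisjunctions
                                          · omega -splitDisjunctions
                                          · rcases H_t23 with g28 | g28
                                            · rcases H_f23_10 with g29 | g29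
                                              · omega -splitDisjunctions
                                              · rcases (nand3 (H_p11_23B e0 P_A2 P_B3)) with g30 | g30 | g30
                                                · omega -splitDisjunctions
                                                · omega -splitDisjunctions
                                                · omega -splitDisjunctions
                                            · omega -splitDisjunctions
                                          · rcases (nand3 (H_p13_23B P_A1 P_B3 P_A2)) with g31 | g31 | g31
                                            · omega -splitDisjunctions
                                            · omega -splitDisjunctions
                                            · rcases H_t23 with g32 | g32
                                              · rcases (nand6 H_tmzp) with g33 | g33 | g33 | g33 | g33 | g33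
                                                · omega -splitDisjunctions
                                                · omega -splitDisjunctions
                                                · omega -splitDisjunctions
                                                · omega -splitDisjunctions
                                                · omega -splitDisjunctions
                                                · rcases (nand3 (H_p11_22B e0 P_B2)) with g34 | g34 | g34
                                                  · rcases H_f23_10 with g35 | g35
                                                    · omega -splitDisjunctions
                                                    · rcases (nand3 (H_p11_23B e0 P_A2 P_B3)) with g36 | g36 | g36
                                                      · omega -splitDisjunctions
                                                      · omega -splitDisjunctions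
                                                      · omega -splitDisjunctions
                                                  · omega -splitDisjunctions
                                                  · omega -splitDisjunctions
                                              · rcases (nand3 (H_p22_33A P_B2 e1)) with g37 | g37 | g37
                                                · omega -splitDisjunctions
                                                · omega -splitDisjunctions
                                                · omega -splitDisjunctions
                                    · omega -splitDisjunctions
                                  · omega -splitDisjunctions
                        · omega -splitDisjunctions
                        · omega -splitDisjunctions
                      · rcases (nand4 H_tzmp) with g38 | g38 | g38 | g38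
                        · omega -splitDisjunctions
                        · omega -splitDisjunctions
                        · omega -splitDisjunctions
                        · omega -splitDisjunctions
                      · omega -splitDisjunctions
                    · omega -splitDisjunctions
                  · rcases H_f33_2 with g39 | g39
                    · rcases (nand3 (H_p11_13B e0 P_A1 P_B3)) with g40 | g40 | g40
                      · rcases (nand3 (H_p13_33A P_A1 P_B3 e1)) with g41 | g41 | g41
                        · omega -splitDisjunctions
                        · omega -splitDisjunctions
                        · rcases H_t23 with g42 | g42
                          · rcases (nand6 H_tmzp) with g43 | g43 | g43 | g43 | g43 | g43
                            · omega -splitDisjunctions
                            · omega -splitDisjunctions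
                            · omega -splitDisjunctions
                            · omega -splitDisjunctions
                            · omega -splitDisjunctions
                            · rcases (nand4 H_tmpp) with g44 | g44 | g44 | g44
                              · omega -splitDisjunctions
                              · rcases H_f22_2 with g45 | g45
                                · omega -splitDisjunctions
                                · rcases H_f22_5 with g46 | g46
                                  · omega -splitDisjunctions
                                  · rcases H_f23_3 with g47 | g47 | g47
                                    · omega -splitDisjunctions
                                    · rcases H_f23_7 with g48 | g48 | g48
                                      · omega -splitDisjunctions
                                      · rcases (nand3 (H_p11_22B e0 P_B2)) with g49 | g49 | g49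
                                        · rcases H_f23_10 with g50 | g50
                                          · omega -splitDisjunctions
                                          · rcases (nand3 (H_p11_23B e0 P_A2 P_B3)) with g51 | g51 | g51
                                            · omega -splitDisjunctions
                                            · omega -splitDisjunctions
                                            · omega -splitDisjunctions
                                        · omega -splitDisjunctions
                                        · omega -splitDisjunctions
                                      · omega -splitDisjunctions
                                    · omega -splitDisjunctions
                              · omega -splitDisjunctions
                              · omega -splitDisjunctions
                          · rcases (nand6 H_tmzp) with g52 | g52 | g52 | g52 | g52 | g52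
                            · omega -splitDisjunctions
                            · rcases H_f22_2 with g53 | g53
                              · omega -splitDisjunctions
                              · rcases H_f22_5 with g54 | g54
                                · omega -splitDisjunctions
                                · rcases (nand3 (H_p22_33A P_B2 e1)) with g55 | g55 | g55
                                  · omega -splitDisjunctions
                                  · omega -splitDisjunctions
                                  · omega -splitDisjunctions
                            · omega -splitDisjunctions
                            · omega -splitDisjunctions
                            · omega -splitDisjunctions
                            · omega -splitDisjunctions
                      · omega -splitDisjunctions
                      · omega -splitDisjunctions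
                    · omega -splitDisjunctions
          · rcases H_f33_8 with g56 | g56
            · omega -splitDisjunctions
            · rcases (nand3 (H_p11_33B e0 e1)) with g57 | g57 | g57
              · omega -splitDisjunctions
              · omega -splitDisjunctions
              · rcases (nand3 (H_p13_33B P_A1 P_B3 e1)) with g58 | g58 | g58
                · omega -splitDisjunctions
                · omega -splitDisjunctions
                · rcases H_t12 with g59 | g59
                  · rcases H_f22_2 with g60 | g60
                    · rcases H_f22_5 with g61 | g61
                      · omega -splitDisjunctions
                      · rcases (nand3 (H_p11_22B e0 P_B2)) with g62 | g62 | g62
                        · omega -splitDisjunctions
                        · rcases H_f33_2 with g63 | g63
                          · rcases (nand3 (H_p22_33A P_B2 e1)) with g64 | g64 | g64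
                            · omega -splitDisjunctions
                            · rcases (nand3 (H_p11_13B e0 P_A1 P_B3)) with g65 | g65 | g65
                              · rcases (nand3 (H_p13_22A P_A1 P_B3 P_B2)) with g66 | g66 | g66
                                · omega -splitDisjunctions
                                · rcases H_f23_3 with g67 | g67 | g67
                                  · rcases H_f23_7 with g68 | g68 | g68
                                    · omega -splitDisjunctions
                                    · rcases H_f23_10 with g69 | g69
                                      · omega -splitDisjunctions
                                      · rcases (nand3 (H_p11_23B e0 P_A2 P_B3)) with g70 | g70 | g70
                                        · omega -splitDisjunctions
                                        · rcases (nand3 (H_p13_22B P_A1 P_B3 P_B2)) with g71 | g71 | g71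
                                          · omega -splitDisjunctions
                                          · omega -splitDisjunctions
                                          · omega -splitDisjunctions
                                        · omega -splitDisjunctions
                                    · omega -splitDisjunctions
                                  · omega -splitDisjunctions
                                  · omega -splitDisjunctions
                                · omega -splitDisjunctions
                              · omega -splitDisjunctions
                              · omega -splitDisjunctions
                            · omega -splitDisjunctions
                          · omega -splitDisjunctions
                        · omega -splitDisjunctions
                    · rcases H_f22_5 with g72 | g72
                      · omega -splitDisjunctions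
                      · rcases H_f23_3 with g73 | g73 | g73
                        · rcases H_f23_7 with g74 | g74 | g74
                          · omega -splitDisjunctions
                          · rcases H_f23_10 with g75 | g75
                            · rcases (nand3 (H_p11_22B e0 P_B2)) with g76 | g76 | g76
                              · omega -splitDisjunctions
                              · omega -splitDisjunctions
                              · omega -splitDisjunctions
                            · rcases (nand3 (H_p11_23B e0 P_A2 P_B3)) with g77 | g77 | g77
                              · omega -splitDisjunctions
                              · rcases H_f33_2 with g78 | g78
                                · rcases (nand3 (H_p11_22B e0 P_B2)) with g79 | g79 | g79
                                  · omega -splitDisjunctions
                                  · rcases (nand6 H_tpmz) with g80 | g80 | g80 | g80 | g80 | g80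
                                    · omega -splitDisjunctions
                                    · rcases (nand4 H_tzmp) with g81 | g81 | g81 | g81
                                      · omega -splitDisjunctions
                                      · omega -splitDisjunctions
                                      · omega -splitDisjunctions
                                      · omega -splitDisjunctions
                                    · omega -splitDisjunctions
                                    · omega -splitDisjunctions
                                    · omega -splitDisjunctions
                                    · omega -splitDisjunctions
                                  · omega -splitDisjunctions
                                · omega -splitDisjunctions
                              · omega -splitDisjunctions
                          · omega -splitDisjunctions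
                        · rcases H_f23_7 with g82 | g82 | g82
                          · omega -splitDisjunctions
                          · rcases (nand3 (H_p11_22B e0 P_B2)) with g83 | g83 | g83
                            · rcases (nand3 (H_p22_33B P_B2 e1)) with g84 | g84 | g84
                              · omega -splitDisjunctions
                              · omega -splitDisjunctions
                              · rcases (nand3 (H_p23_33B P_A2 P_B3 e1)) with g85 | g85 | g85
                                · omega -splitDisjunctions
                                · omega -splitDisjunctions
                                · rcases H_t23 with g86 | g86
                                  · rcases H_f23_10 with g87 | g87
                                    · omega -splitDisjunctions
                                    · rcases (nand3 (H_p11_23B e0 P_A2 P_B3)) with g88 | g88 | g88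
                                      · omega -splitDisjunctions
                                      · omega -splitDisjunctions
                                      · omega -splitDisjunctions
                                  · rcases H_f23_10 with g89 | g89
                                    · omega -splitDisjunctions
                                    · rcases (nand3 (H_p11_13B e0 P_A1 P_B3)) with g90 | g90 | g90
                                      · rcases (nand3 (H_p22_33A P_B2 e1)) with g91 | g91 | g91
                                        · omega -splitDisjunctions
                                        · rcases (nand3 (H_p11_23B e0 P_A2 P_B3)) with g92 | g92 | g92
                                          · omega -splitDisjunctions
                                          · rcases (nand3 (H_p13_22B P_A1 P_B3 P_B2)) with g93 | g93 | g93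
                                            · omega -splitDisjunctions
                                            · omega -splitDisjunctions
                                            · omega -splitDisjunctions
                                          · omega -splitDisjunctions
                                        · omega -splitDisjunctions
                                      · rcases (nand3 (H_p22_33A P_B2 e1)) with g94 | g94 | g94
                                        · omega -splitDisjunctions
                                        · omega -splitDisjunctions
                                        · omega -splitDisjunctions
                                      · omega -splitDisjunctions
                            · rcases H_f23_10 with g95 | g95
                              · omega -splitDisjunctions
                              · rcases (nand3 (H_p11_13B e0 P_A1 P_B3)) with g96 | g96 | g96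
                                · rcases H_t23 with g97 | g97
                                  · rcases (nand3 (H_p11_23B e0 P_A2 P_B3)) with g98 | g98 | g98
                                    · omega -splitDisjunctions
                                    · rcases (nand3 (H_p11_33A e0 e1)) with g99 | g99 | g99
                                      · rcases (nand3 (H_p13_33A P_A1 P_B3 e1)) with g100 | g100 | g100
                                        · omega -splitDisjunctions
                                        · omega -splitDisjunctions
                                        · rcases (nand3 (H_p22_23A P_B2 P_A2 P_B3)) with g101 | g101 | g101
                                          · omega -splitDisjunctions
                                          · rcases (nand3 (H_p22_33A P_B2 e1)) with g102 | g102 | g102
                                            · omega -splitDisjunctions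
                                            · rcases (nand6 H_tmzp) with g103 | g103 | g103 | g103 | g103 | g103
                                              · omega -splitDisjunctions
                                              · omega -splitDisjunctions
                                              · omega -splitDisjunctions
                                              · omega -splitDisjunctions
                                              · omega -splitDisjunctions
                                              · omega -splitDisjunctions
                                            · omega -splitDisjunctions
                                          · omega -splitDisjunctions
                                      · omega -splitDisjunctions
                                      · omega -splitDisjunctions
                                    · omega -splitDisjunctions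
                                  · rcases (nand3 (H_p22_33A P_B2 e1)) with g104 | g104 | g104
                                    · omega -splitDisjunctions
                                    · rcases (nand3 (H_p11_23B e0 P_A2 P_B3)) with g105 | g105 | g105
                                      · omega -splitDisjunctions
                                      · rcases (nand6 H_tmzp) with g106 | g106 | g106 | g106 | g106 | g106
                                        · omega -splitDisjunctions
                                        · omega -splitDisjunctions
                                        · omega -splitDisjunctions
                                        · omega -splitDisjunctions
                                        · omega -splitDisjunctions
                                        · omega -splitDisjunctions
                                      · omega -splitDisjunctions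
                                    · omega -splitDisjunctions
                                · rcases (nand3 (H_p22_33A P_B2 e1)) with g107 | g107 | g107
                                  · omega -splitDisjunctions
                                  · omega -splitDisjunctions
                                  · omega -splitDisjunctions
                                · omega -splitDisjunctions
                            · omega -splitDisjunctions
                          · omega -splitDisjunctions
                        · omega -splitDisjunctions
                  · rcases (nand3 (H_p11_13B e0 P_A1 P_B3)) with g108 | g108 | g108
                    · rcases H_f22_2 with g109 | g109
                      · rcases H_f22_5 with g110 | g110
                        · omega -splitDisjunctions
                        · rcases (nand3 (H_p11_22B e0 P_B2)) with g111 | g111 | g111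
                          · omega -splitDisjunctions
                          · rcases H_f33_2 with g112 | g112
                            · rcases (nand3 (H_p13_22A P_A1 P_B3 P_B2)) with g113 | g113 | g113
                              · omega -splitDisjunctions
                              · rcases H_f23_3 with g114 | g114 | g114
                                · rcases H_f23_7 with g115 | g115 | g115
                                  · omega -splitDisjunctions
                                  · rcases H_f23_10 with g116 | g116
                                    · omega -splitDisjunctions
                                    · rcases (nand3 (H_p11_23B e0 P_A2 P_B3)) with g117 | g117 | g117
                                      · omega -splitDisjunctions
                                      · omega -splitDisjunctions
                                      · omega -splitDisjunctions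
                                  · omega -splitDisjunctions
                                · omega -splitDisjunctions
                                · omega -splitDisjunctions
                              · omega -splitDisjunctions
                            · omega -splitDisjunctions
                          · omega -splitDisjunctions
                      · rcases H_f22_5 with g118 | g118
                        · omega -splitDisjunctions
                        · rcases H_f23_3 with g119 | g119 | g119
                          · rcases H_f23_7 with g120 | g120 | g120
                            · omega -splitDisjunctions
                            · rcases (nand3 (H_p13_23B P_A1 P_B3 P_A2)) with g121 | g121 | g121
                              · omega -splitDisjunctions
                              · omega -splitDisjunctions
                              · rcases (nand4 H_tmpp) with g122 | g122 | g122 | g122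
                                · omega -splitDisjunctions
                                · omega -splitDisjunctions
                                · omega -splitDisjunctions
                                · rcases H_f23_10 with g123 | g123
                                  · omega -splitDisjunctions
                                  · rcases (nand3 (H_p11_23B e0 P_A2 P_B3)) with g124 | g124 | g124
                                    · omega -splitDisjunctions
                                    · rcases (nand3 (H_p13_22A P_A1 P_B3 P_B2)) with g125 | g125 | g125
                                      · omega -splitDisjunctions
                                      · omega -splitDisjunctions
                                      · omega -splitDisjunctions
                                    · omega -splitDisjunctions
                            · omega -splitDisjunctions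
                          · rcases H_f23_7 with g126 | g126 | g126
                            · omega -splitDisjunctions
                            · rcases (nand3 (H_p13_23B P_A1 P_B3 P_A2)) with g127 | g127 | g127
                              · omega -splitDisjunctions
                              · omega -splitDisjunctions
                              · rcases (nand3 (H_p11_22B e0 P_B2)) with g128 | g128 | g128
                                · rcases (nand3 (H_p22_33B P_B2 e1)) with g129 | g129 | g129
                                  · omega -splitDisjunctions
                                  · omega -splitDisjunctions
                                  · rcases (nand3 (H_p23_33B P_A2 P_B3 e1)) with g130 | g130 | g130
                                    · omega -splitDisjunctions
                                    · omega -splitDisjunctions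
                                    · rcases H_t23 with g131 | g131
                                      · rcases H_f23_10 with g132 | g132
                                        · omega -splitDisjunctions
                                        · rcases (nand3 (H_p11_23B e0 P_A2 P_B3)) with g133 | g133 | g133
                                          · omega -splitDisjunctions
                                          · omega -splitDisjunctions
                                          · omega -splitDisjunctions
                                      · rcases H_f23_10 with g134 | g134
                                        · omega -splitDisjunctions
                                        · rcases (nand3 (H_p13_22B P_A1 P_B3 P_B2)) with g135 | g135 | g135
                                          · omega -splitDisjunctions
                                          · omega -splitDisjunctions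
                                          · rcases (nand3 (H_p22_33A P_B2 e1)) with g136 | g136 | g136
                                            · omega -splitDisjunctions
                                            · rcases (nand3 (H_p11_23B e0 P_A2 P_B3)) with g137 | g137 | g137
                                              · omega -splitDisjunctions
                                              · omega -splitDisjunctions
                                              · omega -splitDisjunctions
                                            · omega -splitDisjunctions
                                · rcases H_f23_10 with g138 | g138
                                  · omega -splitDisjunctions
                                  · rcases H_t23 with g139 | g139
                                    · rcases (nand3 (H_p11_23B e0 P_A2 P_B3)) with g140 | g140 | g140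
                                      · omega -splitDisjunctions
                                      · rcases (nand6 H_tmzp) with g141 | g141 | g141 | g141 | g141 | g141
                                        · omega -splitDisjunctions
                                        · omega -splitDisjunctions
                                        · omega -splitDisjunctions
                                        · omega -splitDisjunctions
                                        · omega -splitDisjunctions
                                        · omega -splitDisjunctions
                                      · omega -splitDisjunctions
                                    · rcases (nand3 (H_p13_22B P_A1 P_B3 P_B2)) with g142 | g142 | g142
                                      · omega -splitDisjunctions
                                      · omega -splitDisjunctions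
                                      · rcases (nand3 (H_p22_33A P_B2 e1)) with g143 | g143 | g143
                                        · omega -splitDisjunctions
                                        · rcases (nand3 (H_p11_23B e0 P_A2 P_B3)) with g144 | g144 | g144
                                          · omega -splitDisjunctions
                                          · rcases (nand6 H_tmzp) with g145 | g145 | g145 | g145 | g145 | g145
                                            · omega -splitDisjunctions
                                            · omega -splitDisjunctions
                                            · omega -splitDisjunctions
                                            · omega -splitDisjunctions
                                            · omega -splitDisjunctions
                                            · omega -splitDisjunctions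
                                          · omega -splitDisjunctions
                                        · omega -splitDisjunctions
                                · omega -splitDisjunctions
                            · omega -splitDisjunctions
                          · omega -splitDisjunctions
                    · omega -splitDisjunctions
                    · omega -splitDisjunctions
      · rcases H_f13_8 with g146 | g146
        · omega -splitDisjunctions
        · rcases (nand3 (H_p11_13B e0 P_A1 P_B3)) with g147 | g147 | g147
          · rcases H_f33_5 with g148 | g148
            · omega -splitDisjunctions
            · rcases H_f33_8 with g149 | g149
              · omega -splitDisjunctions
              · rcases (nand3 (H_p11_33B e0 e1)) with g150 | g150 | g150
                · omega -splitDisjunctions
                · omega -splitDisjunctions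
                · rcases H_f22_2 with g151 | g151
                  · rcases H_f22_5 with g152 | g152
                    · omega -splitDisjunctions
                    · rcases (nand3 (H_p11_22B e0 P_B2)) with g153 | g153 | g153
                      · omega -splitDisjunctions
                      · rcases H_f33_2 with g154 | g154
                        · rcases (nand3 (H_p13_22A P_A1 P_B3 P_B2)) with g155 | g155 | g155
                          · omega -splitDisjunctions
                          · rcases H_f23_3 with g156 | g156 | g156
                            · rcases H_f23_7 with g157 | g157 | g157
                              · omega -splitDisjunctions
                              · rcases H_f23_10 with g158 | g158
                                · omega -splitDisjunctions
                                · rcases (nand3 (H_p11_23B e0 P_A2 P_B3)) with g159 | g159 | g159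
                                  · omega -splitDisjunctions
                                  · omega -splitDisjunctions
                                  · omega -splitDisjunctions
                              · omega -splitDisjunctions
                            · omega -splitDisjunctions
                            · omega -splitDisjunctions
                          · omega -splitDisjunctions
                        · omega -splitDisjunctions
                      · omega -splitDisjunctions
                  · rcases H_f22_5 with g160 | g160
                    · omega -splitDisjunctions
                    · rcases H_f23_3 with g161 | g161 | g161
                      · rcases H_f23_7 with g162 | g162 | g162
                        · omega -splitDisjunctions
                        · rcases (nand4 H_tmpp) with g163 | g163 | g163 | g163
                          · omega -splitDisjunctions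
                          · omega -splitDisjunctions
                          · omega -splitDisjunctions
                          · rcases H_f23_10 with g164 | g164
                            · omega -splitDisjunctions
                            · rcases (nand3 (H_p11_22B e0 P_B2)) with g165 | g165 | g165
                              · omega -splitDisjunctions
                              · rcases (nand3 (H_p11_23B e0 P_A2 P_B3)) with g166 | g166 | g166
                                · omega -splitDisjunctions
                                · rcases (nand3 (H_p13_22A P_A1 P_B3 P_B2)) with g167 | g167 | g167
                                  · omega -splitDisjunctions
                                  · omega -splitDisjunctions
                                  · omega -splitDisjunctions
                                · omega -splitDisjunctions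
                              · omega -splitDisjunctions
                        · omega -splitDisjunctions
                      · rcases H_f23_7 with g168 | g168 | g168
                        · omega -splitDisjunctions
                        · rcases (nand3 (H_p11_22B e0 P_B2)) with g169 | g169 | g169
                          · rcases H_t23 with g170 | g170
                            · rcases H_f23_10 with g171 | g171
                              · omega -splitDisjunctions
                              · rcases (nand3 (H_p11_23B e0 P_A2 P_B3)) with g172 | g172 | g172
                                · omega -splitDisjunctions
                                · omega -splitDisjunctions
                                · omega -splitDisjunctions
                            · omega -splitDisjunctions
                          · rcases H_f23_10 with g173 | g173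
                            · omega -splitDisjunctions
                            · rcases (nand3 (H_p11_23B e0 P_A2 P_B3)) with g174 | g174 | g174
                              · omega -splitDisjunctions
                              · rcases (nand6 H_tmzp) with g175 | g175 | g175 | g175 | g175 | g175
                                · omega -splitDisjunctions
                                · omega -splitDisjunctions
                                · omega -splitDisjunctions
                                · omega -splitDisjunctions
                                · omega -splitDisjunctions
                                · omega -splitDisjunctions
                              · omega -splitDisjunctions
                          · omega -splitDisjunctions
                        · omega -splitDisjunctions
                      · omega -splitDisjunctions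
          · omega -splitDisjunctions
          · omega -splitDisjunctions
    · omega -splitDisjunctions

end Pool.Agent.Helper52.TQ
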