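import Pool.Agent.Helper52.TQ.Nand

set_option autoImplicit false
set_option linter.all false
set_option maxHeartbeats 4000000

namespace Pool.Agent.Helper52.TQ

open Pool.Agent.Helper89.TQ

theorem c0_11_11_33_k1 {n1 n2 n3 A1 A2 A3 B1 B2 B3 m11_1 m11_2 m11_3 m13_1 m13_2 m13_3 m22_1 m22_2 m22_3 m23_1 m23_2 m23_3 m33_1 m33_2 m33_3 : ℤ}
    (C : Ctx0 n1 n2 n3 A1 A2 A3 B1 B2 B3 m11_1 m11_2 m11_3 m13_1 m13_2 m13_3 m22_1 m22_2 m22_3 m23_1 m23_2 m23_3 m33_1 m33_2 m33_3)
    (e0 : 0 < B1)
    (e1 : 0 < A3)
    (s1 : 1 * A1 + 2 * B1 ≤ m11_1 + m11_1 + m33_1)
    (s2 : 1 * A2 + 2 * B2 ≤ m11_2 + m11_2 + m33_2)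
    (s3 : 1 * A3 + 2 * B3 ≤ m11_3 + m11_3 + m33_3) : False := by
  have H_a0 := C.a0
  have H_a1 := C.a1
  have H_a2 := C.a2
  have H_a3 := C.a3
  have H_a4 := C.a4
  have H_a5 := C.a5
  have H_b0 := C.b0
  have H_b1 := C.b1
  have H_b2 := C.b2
  have H_b3 := C.b3
  have H_b4 := C.b4
  have H_b5 := C.b5
  have H_o0 := C.o0
  have H_o1 := C.o1
  have H_o2 := C.o2
  have H_f11_0 := C.f11_0
  have H_f11_1 := C.f11_1
  have H_f11_2 := C.f11_2
  have H_f13_0 := C.f13_0
  have H_f13_1 := C.f13_1
  have H_f13_3 := C.f13_3
  have H_f13_4 := C.f13_4
  have H_f13_6 := C.f13_6
  have H_f13_7 := C.f13_7
  have H_f22_0 := C.f22_0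
  have H_f22_1 := C.f22_1
  have H_f22_3 := C.f22_3
  have H_f22_4 := C.f22_4
  have H_f22_6 := C.f22_6
  have H_f23_0 := C.f23_0
  have H_f23_1 := C.f23_1
  have H_f23_2 := C.f23_2
  have H_f23_4 := C.f23_4
  have H_f23_5 := C.f23_5
  have H_f23_6 := C.f23_6
  have H_f23_8 := C.f23_8
  have H_f23_9 := C.f23_9
  have H_f33_0 := C.f33_0
  have H_f33_1 := C.f33_1
  have H_f33_3 := C.f33_3
  have H_f33_4 := C.f33_4
  have H_f33_6 := C.f33_6
  have H_f33_7 := C.f33_7
  have P_A1 : 0 < A1 := by omega -splitDisjunctions
  have P_B3 : 0 < B3 := by omega -splitDisjunctions
  have P_B2 : 0 < B2 := by omega -splitDisjunctions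
  have P_A2 : 0 < A2 := by omega -splitDisjunctions
  have H_f13_2 := C.f13_2
  have H_f13_5 := C.f13_5
  have H_f13_8 := C.f13_8
  have H_f33_5 := C.f33_5
  have H_f33_8 := C.f33_8
  have H_p11_13B := C.p11_13B
  have H_p11_33A := C.p11_33A
  have H_p11_33B := C.p11_33B
  have H_p13_33A := C.p13_33A
  have H_p13_33B := C.p13_33B
  have H_tmpp := C.tmpp
  have H_tmzp := C.tmzp
  have H_tzpm := C.tzpm
  clear C
  · rcases H_f13_2 with g0 | g0
    · rcases H_f13_5 with g1 | g1
      · rcases H_f13_8 with g2 | g2
        · omega -splitDisjunctions
        · rcases H_f33_5 with g3 | g3
          · rcases H_f33_8 with g4 | g4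
            · omega -splitDisjunctions
            · rcases (nand3 (H_p11_33B e0 e1)) with g5 | g5 | g5
              · omega -splitDisjunctions
              · omega -splitDisjunctions
              · rcases (nand3 (H_p13_33A P_A1 P_B3 e1)) with g6 | g6 | g6
                · omega -splitDisjunctions
                · omega -splitDisjunctions
                · rcases (nand3 (H_p13_33B P_A1 P_B3 e1)) with g7 | g7 | g7
                  · omega -splitDisjunctions
                  · omega -splitDisjunctions
                  · rcases (nand3 (H_p11_13B e0 P_A1 P_B3)) with g8 | g8 | g8
                    · rcases (nand3 (H_p11_33A e0 e1)) with g9 | g9 | g9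
                      · omega -splitDisjunctions
                      · omega -splitDisjunctions
                      · omega -splitDisjunctions
                    · rcases (nand3 (H_p11_33A e0 e1)) with g10 | g10 | g10
                      · omega -splitDisjunctions
                      · omega -splitDisjunctions
                      · omega -splitDisjunctions
                    · omega -splitDisjunctions
          · rcases H_f33_8 with g11 | g11
            · omega -splitDisjunctions
            · rcases (nand3 (H_p11_33B e0 e1)) with g12 | g12 | g12
              · omega -splitDisjunctions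
              · omega -splitDisjunctions
              · rcases (nand3 (H_p13_33B P_A1 P_B3 e1)) with g13 | g13 | g13
                · omega -splitDisjunctions
                · omega -splitDisjunctions
                · rcases (nand3 (H_p11_13B e0 P_A1 P_B3)) with g14 | g14 | g14
                  · rcases (nand3 (H_p11_33A e0 e1)) with g15 | g15 | g15
                    · omega -splitDisjunctions
                    · rcases (nand5 H_tzpm) with g16 | g16 | g16 | g16 | g16
                      · omega -splitDisjunctions
                      · omega -splitDisjunctions
                      · omega -splitDisjunctions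
                      · omega -splitDisjunctions
                      · rcases (nand6 H_tmzp) with g17 | g17 | g17 | g17 | g17 | g17
                        · omega -splitDisjunctions
                        · omega -splitDisjunctions
                        · rcases (nand4 H_tmpp) with g18 | g18 | g18 | g18
                          · omega -splitDisjunctions
                          · omega -splitDisjunctions
                          · omega -splitDisjunctions
                          · omega -splitDisjunctions
                        · omega -splitDisjunctions
                        · omega -splitDisjunctions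
                        · rcases (nand4 H_tmpp) with g19 | g19 | g19 | g19
                          · omega -splitDisjunctions
                          · omega -splitDisjunctions
                          · omega -splitDisjunctions
                          · omega -splitDisjunctions
                    · omega -splitDisjunctions
                  · rcases (nand3 (H_p11_33A e0 e1)) with g20 | g20 | g20
                    · omega -splitDisjunctions
                    · omega -splitDisjunctions
                    · omega -splitDisjunctions
                  · omega -splitDisjunctions
      · rcases H_f13_8 with g21 | g21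
        · omega -splitDisjunctions
        · rcases H_f33_5 with g22 | g22
          · omega -splitDisjunctions
          · rcases H_f33_8 with g23 | g23
            · omega -splitDisjunctions
            · rcases (nand3 (H_p11_13B e0 P_A1 P_B3)) with g24 | g24 | g24
              · rcases (nand3 (H_p11_33A e0 e1)) with g25 | g25 | g25
                · omega -splitDisjunctions
                · rcases (nand4 H_tmpp) with g26 | g26 | g26 | g26
                  · omega -splitDisjunctions
                  · omega -splitDisjunctions
                  · omega -splitDisjunctions
                  · omega -splitDisjunctions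
                · omega -splitDisjunctions
              · omega -splitDisjunctions
              · omega -splitDisjunctions
    · omega -splitDisjunctions

end Pool.Agent.Helper52.TQ
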